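import Pool.Agent.CYD.GradedEx

set_option autoImplicit false

namespace Pool.Agent.Results.MP_1d6ef7_nt.GradedPrimes

open Polynomial

/-- (1) Let `n` be the product of a set `S` of `k` odd primes and let `a ∈ S`. Suppose that every
product of `t` members of `S` is larger than the sum of all products of fewer than `t` members of
`S`, and that every product of `t` members of `S \ {a}` is larger than `a - 1` times the sum of all
products of fewer than `t` members of `S \ {a}`. Then the derivative of the `n`-th cyclotomic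
polynomial has exactly `2 k - 1` real roots, all of them simple, namely `k` roots in `(-1, 0)` and
`k - 1` roots in `(0, 1)`.
(2) For all `k ≥ 1` and `N` there is a set of `k` odd primes larger than `N` with these
properties. -/
theorem result :
    (∀ (S : Finset ℕ), (∀ p ∈ S, p.Prime ∧ p ≠ 2) → ∀ a ∈ S,
      (∀ T ⊆ S, ∑ i ∈ Finset.range T.card, ∑ U ∈ S.powersetCard i, ∏ r ∈ U, r <
        ∏ r ∈ T, r) →
      (∀ T ⊆ S.erase a, (a - 1) * ∑ i ∈ Finset.range T.card,
        ∑ U ∈ (S.erase a).powersetCard i, ∏ r ∈ U, r < ∏ r ∈ T, r) →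
      (derivative (cyclotomic (∏ p ∈ S, p) ℝ)).roots.card = 2 * S.card - 1 ∧
      (derivative (cyclotomic (∏ p ∈ S, p) ℝ)).roots.Nodup ∧
      ((derivative (cyclotomic (∏ p ∈ S, p) ℝ)).roots.filter
        (fun x => -1 < x ∧ x < 0)).card = S.card ∧
      ((derivative (cyclotomic (∏ p ∈ S, p) ℝ)).roots.filter
        (fun x => 0 < x ∧ x < 1)).card = S.card - 1) ∧
    (∀ k N : ℕ, 1 ≤ k → ∃ S : Finset ℕ, S.card = k ∧ (∀ p ∈ S, p.Prime ∧ N < p ∧ p ≠ 2) ∧
      ∃ a ∈ S,
      (∀ T ⊆ S, ∑ i ∈ Finset.range T.card, ∑ U ∈ S.powersetCard i, ∏ r ∈ U, r <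
        ∏ r ∈ T, r) ∧
      (∀ T ⊆ S.erase a, (a - 1) * ∑ i ∈ Finset.range T.card,
        ∑ U ∈ (S.erase a).powersetCard i, ∏ r ∈ U, r < ∏ r ∈ T, r)) :=
  ⟨fun S hS a ha hG hG' => ⟨(Pool.Agent.CYD.graded S hS a ha hG hG').1,
    Pool.Agent.CYD.graded_simple S hS a ha hG hG',
    (Pool.Agent.CYD.graded S hS a ha hG hG').2⟩,
    fun k N hk => Pool.Agent.CYD.graded_exists k N hk⟩

end Pool.Agent.Results.MP_1d6ef7_nt.GradedPrimes
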