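import Pool.Agent.CycCrit.Lower
import Pool.Agent.CycCrit.Uniform

set_option autoImplicit false

namespace Pool.Agent.Results.MP_1d6ef7_nt.LowerBound

open Polynomial

/-- Let `n` be the product of a nonempty finite set `S` of odd primes, `k = S.card`.
The derivative of the `n`-th cyclotomic polynomial has, counted with multiplicity, at least `k`
roots in `(-1, 0)`, at least `k - 1` roots in `(0, 1)`, and so at least `2 k - 1` real roots;
and it has at most `2 (2 ^ 2 ^ k - 1)` real roots. -/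
theorem result (S : Finset ℕ) (hS : ∀ p ∈ S, p.Prime ∧ p ≠ 2) (hne : S.Nonempty) :
    S.card ≤ ((derivative (cyclotomic (∏ p ∈ S, p) ℝ)).roots.filter
      (fun x => -1 < x ∧ x < 0)).card ∧
    S.card - 1 ≤ ((derivative (cyclotomic (∏ p ∈ S, p) ℝ)).roots.filter
      (fun x => 0 < x ∧ x < 1)).card ∧
    2 * S.card - 1 ≤ (derivative (cyclotomic (∏ p ∈ S, p) ℝ)).roots.card ∧
    (derivative (cyclotomic (∏ p ∈ S, p) ℝ)).roots.card ≤ 2 * (2 ^ 2 ^ S.card - 1) :=
  ⟨(Pool.Agent.CycCrit.main_lower S hS hne).1, (Pool.Agent.CycCrit.main_lower S hS hne).2,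
    Pool.Agent.CycCrit.main_total S hS hne, Pool.Agent.CycCrit.uniform S hS hne⟩

end Pool.Agent.Results.MP_1d6ef7_nt.LowerBound
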