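import Pool.Agent.CYD.Main
import Pool.Agent.CycCrit.Lower
import Pool.Agent.CYE.All

set_option autoImplicit false

namespace Pool.Agent.Results.MP_1d6ef7_nt.SeparatedPrimes

open Polynomial

/-- Let `n` be the product of a nonempty finite set `S` of `k` odd primes such that either every
`p ∈ S` is larger than the product of the numbers `r + 1` over the `r ∈ S` with `r < p`, or every
divisor of `n` is at least twice the sum of the smaller divisors of `n`. Then the number `N_n` of
real roots of the derivative of the `n`-th cyclotomic polynomial, counted with multiplicity,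
satisfies `2 k - 1 ≤ N_n ≤ 2 ^ k - 1`. In the first case there are at most `⌊2 ^ (k + 1) / 3⌋`
negative roots and at most `⌊2 ^ k / 3⌋` positive roots. -/
theorem result (S : Finset ℕ) (hS : ∀ p ∈ S, p.Prime ∧ p ≠ 2) (hne : S.Nonempty)
    (h : (∀ p ∈ S, ∏ r ∈ S with r < p, (r + 1) < p) ∨
      (∀ d ∈ (∏ p ∈ S, p).divisors, 2 * (∑ e ∈ (∏ p ∈ S, p).divisors with e < d, e) ≤ d)) :
    (2 * S.card - 1 ≤ (derivative (cyclotomic (∏ p ∈ S, p) ℝ)).roots.card ∧
      (derivative (cyclotomic (∏ p ∈ S, p) ℝ)).roots.card ≤ 2 ^ S.card - 1) ∧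
    ((∀ p ∈ S, ∏ r ∈ S with r < p, (r + 1) < p) →
      ((derivative (cyclotomic (∏ p ∈ S, p) ℝ)).roots.filter (· < 0)).card ≤
        2 ^ (S.card + 1) / 3 ∧
      ((derivative (cyclotomic (∏ p ∈ S, p) ℝ)).roots.filter (0 < ·)).card ≤
        2 ^ S.card / 3) :=
  ⟨⟨Pool.Agent.CycCrit.main_total S hS hne, h.elim
      (fun hsep => (Pool.Agent.CYD.upper S hS hne hsep).2.2)
      (fun hlac => (Pool.Agent.CYE.lac S hS hne hlac).2)⟩,
    fun hsep => ⟨(Pool.Agent.CYD.upper S hS hne hsep).1,
      (Pool.Agent.CYD.upper S hS hne hsep).2.1⟩⟩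

end Pool.Agent.Results.MP_1d6ef7_nt.SeparatedPrimes
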