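import Pool.Agent.CycCrit.ThreeFull

set_option autoImplicit false

namespace Pool.Agent.Results.MP_1d6ef7_nt.ThreePrimes

open Polynomial

/-- Critical points of cyclotomic polynomials of products of two and of three odd primes. All
numbers of roots are with multiplicity.
Two distinct odd primes `p`, `q`: the derivative of the cyclotomic polynomial of order `p q` has
exactly three real roots, all simple, two in `(-1, 0)` and one in `(0, 1)`.
Three odd primes `p < q < r`: the derivative of the cyclotomic polynomial of order `p q r` has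
at least five and at most seven real roots; exactly two are positive and these are simple; if
`r < (p + 1)(q + 1)`, it has exactly five real roots, all simple, three of them in
`(-1, 0)`. -/
theorem result :
    (∀ p q : ℕ, p.Prime → q.Prime → p ≠ 2 → q ≠ 2 → p ≠ q →
      (derivative (cyclotomic (p * q) ℝ)).roots.card = 3 ∧
      (derivative (cyclotomic (p * q) ℝ)).roots.Nodup ∧
      ((derivative (cyclotomic (p * q) ℝ)).roots.filter (fun x => -1 < x ∧ x < 0)).card = 2 ∧
      ((derivative (cyclotomic (p * q) ℝ)).roots.filter (fun x => 0 < x ∧ x < 1)).card = 1) ∧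
    (∀ p q r : ℕ, p.Prime → q.Prime → r.Prime → p ≠ 2 → p < q → q < r →
      (5 ≤ (derivative (cyclotomic (p * q * r) ℝ)).roots.card ∧
        (derivative (cyclotomic (p * q * r) ℝ)).roots.card ≤ 7) ∧
      (((derivative (cyclotomic (p * q * r) ℝ)).roots.filter (fun x => 0 < x)).Nodup ∧
        ((derivative (cyclotomic (p * q * r) ℝ)).roots.filter (fun x => 0 < x)).card = 2) ∧
      (r < (p + 1) * (q + 1) → (derivative (cyclotomic (p * q * r) ℝ)).roots.card = 5 ∧
        ((derivative (cyclotomic (p * q * r) ℝ)).roots.filter
          (fun x => -1 < x ∧ x < 0)).card = 3 ∧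
        (derivative (cyclotomic (p * q * r) ℝ)).roots.Nodup)) :=
  ⟨fun _ _ hp hq hp2 hq2 hpq => Pool.Agent.CycCrit.two_count hp hq hp2 hq2 hpq,
    fun _ _ _ hp hq hr hp2 hpq hqr => Pool.Agent.CycCrit.three_full hp hq hr hp2 hpq hqr⟩

end Pool.Agent.Results.MP_1d6ef7_nt.ThreePrimes
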